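import Mathlib

/-!
# M-bases and bases with parentheses (definitions of the problem file)
-/

set_option autoImplicit false
open Filter Topology

namespace Pool.Agent.Helper37.MBC

variable {𝕜 : Type} [RCLike 𝕜] {E : Type} [NormedAddCommGroup E] [NormedSpace 𝕜 E]

/-- `(x, f)` is an M-basis with its biorthogonal functionals: the closed linear span of the `x n`
is everything, `f i (x j) = δ_{ij}`, and the functionals are total. -/
def IsMBasis (x : ℕ → E) (f : ℕ → (E →L[𝕜] 𝕜)) : Prop :=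
  (Submodule.span 𝕜 (Set.range x)).topologicalClosure = ⊤ ∧
    (∀ i j : ℕ, f i (x j) = if i = j then 1 else 0) ∧
    ∀ v : E, (∀ n : ℕ, f n v = 0) → v = 0

/-- The closed linear span of the vectors `x i`, `i ∈ s`. -/
def closedSpan (𝕜 : Type) [RCLike 𝕜] {E : Type} [NormedAddCommGroup E] [NormedSpace 𝕜 E]
    (x : ℕ → E) (s : Set ℕ) : Submodule 𝕜 E :=
  (Submodule.span 𝕜 (x '' s)).topologicalClosure

/-- The sequence `y` is a basis with parentheses of the Banach space `F`. -/
def IsBasisWithParentheses (𝕜 : Type) [RCLike 𝕜] {F : Type} [NormedAddCommGroup F]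
    [NormedSpace 𝕜 F] (y : ℕ → F) : Prop :=
  ∃ (g : ℕ → (F →L[𝕜] 𝕜)) (m : ℕ → ℕ), (∀ i j : ℕ, g i (y j) = if i = j then 1 else 0) ∧
    StrictMono m ∧ ∀ v : F,
      Tendsto (fun k => ∑ i ∈ Finset.range (m k), g i v • y i) atTop (𝓝 v)

/-- The members `x i`, `i ∈ s`, listed by `a : ℕ → ℕ` (every `a n` is in `s`), as elements of their
closed linear span. -/
def sub (𝕜 : Type) [RCLike 𝕜] {E : Type} [NormedAddCommGroup E] [NormedSpace 𝕜 E]
    (x : ℕ → E) (s : Set ℕ) (a : ℕ → ℕ) (ha : ∀ n, a n ∈ s) : ℕ → closedSpan 𝕜 x s :=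
  fun n => ⟨x (a n), Submodule.le_topologicalClosure _ (Submodule.subset_span ⟨a n, ha n, rfl⟩)⟩

end Pool.Agent.Helper37.MBC
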