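import Mathlib
import Pool.Agent.Helper37.MBC.Defs

set_option autoImplicit false
open Filter Topology ZeroAtInfty Set

namespace Pool.Agent.Helper37.MBC

variable {𝕜 : Type} [RCLike 𝕜]

lemma norm_le_iff {f : C₀(ℕ, 𝕜)} {C : ℝ} (hC : 0 ≤ C) : ‖f‖ ≤ C ↔ ∀ z, ‖f z‖ ≤ C := by
  rw [← ZeroAtInftyContinuousMap.norm_toBCF_eq_norm (f := f), BoundedContinuousFunction.norm_le hC]
  rfl

lemma norm_apply_le (f : C₀(ℕ, 𝕜)) (z : ℕ) : ‖f z‖ ≤ ‖f‖ :=
  (norm_le_iff (norm_nonneg f)).mp le_rfl z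

/-- A function with finite support as an element of `c_0`. -/
def ofFinite (g : ℕ → 𝕜) (hg : {z | g z ≠ 0}.Finite) : C₀(ℕ, 𝕜) :=
  { toFun := g
    continuous_toFun := continuous_of_discreteTopology
    zero_at_infty' := by
      rw [Filter.cocompact_eq_cofinite]
      refine tendsto_const_nhds.congr' ?_
      have : ∀ᶠ z in cofinite, ¬ g z ≠ 0 := by
        rw [Filter.eventually_cofinite]
        simpa using hg
      filter_upwards [this] with z hz
      simpa using (not_not.mp hz).symm }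

@[simp] lemma ofFinite_apply (g : ℕ → 𝕜) (hg : {z | g z ≠ 0}.Finite) (z : ℕ) :
    ofFinite g hg z = g z := rfl

/-- Evaluation as a continuous linear functional. -/
noncomputable def ev (z : ℕ) : C₀(ℕ, 𝕜) →L[𝕜] 𝕜 :=
  LinearMap.mkContinuous
    { toFun := fun f => f z
      map_add' := fun _ _ => rfl
      map_smul' := fun _ _ => rfl } 1 (by
        intro f
        rw [one_mul]
        exact norm_apply_le f z)

@[simp] lemma ev_apply (z : ℕ) (f : C₀(ℕ, 𝕜)) : ev z f = f z := rfl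

/-- The weights. -/
noncomputable def w (k i : ℕ) : ℝ := if i = 0 then 1 else 1 / ((k : ℝ) + 1)

lemma w_pos (k i : ℕ) : 0 < w k i := by
  unfold w
  split_ifs
  · exact one_pos
  · positivity

lemma w_ne (k i : ℕ) : ((w k i : ℝ) : 𝕜) ≠ 0 := by
  have := (w_pos k i).ne'
  exact_mod_cast this

/-- The value function of the vector `x_{k,j}`. -/
noncomputable def vf (𝕜 : Type) [RCLike 𝕜] (k j : ℕ) (z : ℕ) : 𝕜 :=
  if z.unpair.1 = k ∧ z.unpair.2 ≤ j then ((w k z.unpair.2 : ℝ) : 𝕜) else 0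

lemma vf_finite (k j : ℕ) : {z | vf 𝕜 k j z ≠ 0}.Finite := by
  have h : ((Set.Iic j).image fun i => Nat.pair k i).Finite := (Set.finite_Iic j).image _
  refine h.subset ?_
  intro z hz
  have hz' : vf 𝕜 k j z ≠ 0 := hz
  unfold vf at hz'
  by_cases hc : z.unpair.1 = k ∧ z.unpair.2 ≤ j
  · refine ⟨z.unpair.2, hc.2, ?_⟩
    simp only
    rw [← hc.1, Nat.pair_unpair]
  · rw [if_neg hc] at hz'
    exact absurd rfl hz'

/-- The vectors `x_{k,j}`. -/
noncomputable def vec (𝕜 : Type) [RCLike 𝕜] (k j : ℕ) : C₀(ℕ, 𝕜) := ofFinite (vf 𝕜 k j) (vf_finite k j)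

lemma vec_apply (k j : ℕ) (z : ℕ) :
    vec 𝕜 k j z = if z.unpair.1 = k ∧ z.unpair.2 ≤ j then ((w k z.unpair.2 : ℝ) : 𝕜) else 0 := rfl

lemma vec_pair (k j k' i : ℕ) :
    vec 𝕜 k j (Nat.pair k' i) = if k' = k ∧ i ≤ j then ((w k i : ℝ) : 𝕜) else 0 := by
  rw [vec_apply, Nat.unpair_pair]

/-- The functionals `f_{k,j}`. -/
noncomputable def fn (𝕜 : Type) [RCLike 𝕜] (k j : ℕ) : C₀(ℕ, 𝕜) →L[𝕜] 𝕜 :=
  ((w k j : ℝ) : 𝕜)⁻¹ • ev (Nat.pair k j) - ((w k (j + 1) : ℝ) : 𝕜)⁻¹ • ev (Nat.pair k (j + 1))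

lemma fn_apply (k j : ℕ) (f : C₀(ℕ, 𝕜)) :
    fn 𝕜 k j f = ((w k j : ℝ) : 𝕜)⁻¹ * f (Nat.pair k j) -
      ((w k (j + 1) : ℝ) : 𝕜)⁻¹ * f (Nat.pair k (j + 1)) := rfl

lemma fn_vec (k j k' j' : ℕ) :
    fn 𝕜 k j (vec 𝕜 k' j') = if (k, j) = (k', j') then (1 : 𝕜) else 0 := by
  rw [fn_apply, vec_pair, vec_pair]
  by_cases hk : k = k'
  · subst hk
    have h1 := w_ne (𝕜 := 𝕜) k j
    have h2 := w_ne (𝕜 := 𝕜) k (j + 1)
    rcases lt_trichotomy j j' with h | h | h
    · rw [if_pos ⟨rfl, h.le⟩, if_pos ⟨rfl, h⟩, inv_mul_cancel₀ h1, inv_mul_cancel₀ h2, sub_self,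
        if_neg]
      intro hc
      have := (Prod.ext_iff.mp hc).2
      simp only at this
      omega
    · subst h
      rw [if_pos ⟨rfl, le_rfl⟩, if_neg (by simp), inv_mul_cancel₀ h1]
      simp
    · rw [if_neg (by simp; omega), if_neg (by simp; omega), if_neg]
      · ring
      · intro hc
        have := (Prod.ext_iff.mp hc).2
        simp only at this
        omega
  · rw [if_neg (by simp [hk]), if_neg (by simp [hk]), if_neg (by simp [hk])]
    ring

lemma tendsto_zero (v : C₀(ℕ, 𝕜)) : Tendsto v atTop (𝓝 0) := by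
  have h1 : Tendsto v (cocompact ℕ) (𝓝 0) := ZeroAtInftyContinuousMap.zero_at_infty' v
  rwa [Filter.cocompact_eq_cofinite, Nat.cofinite_eq_atTop] at h1

/-- Totality of the functionals. -/
lemma fn_total (v : C₀(ℕ, 𝕜)) (hv : ∀ k j, fn 𝕜 k j v = 0) : v = 0 := by
  have hstep : ∀ k j, ((w k j : ℝ) : 𝕜)⁻¹ * v (Nat.pair k j) =
      ((w k (j + 1) : ℝ) : 𝕜)⁻¹ * v (Nat.pair k (j + 1)) := by
    intro k j
    have := hv k j
    rw [fn_apply] at this
    exact sub_eq_zero.mp this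
  have hconst : ∀ k j, ((w k j : ℝ) : 𝕜)⁻¹ * v (Nat.pair k j) =
      ((w k 0 : ℝ) : 𝕜)⁻¹ * v (Nat.pair k 0) := by
    intro k j
    induction j with
    | zero => rfl
    | succ j ih => rw [← hstep, ih]
  have hlim : ∀ k, Tendsto (fun j : ℕ => v (Nat.pair k j)) atTop (𝓝 0) := by
    intro k
    refine (tendsto_zero v).comp ?_
    exact Filter.tendsto_atTop_mono (fun j => Nat.right_le_pair k j) tendsto_id
  have hzero : ∀ k, ((w k 0 : ℝ) : 𝕜)⁻¹ * v (Nat.pair k 0) = 0 := by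
    intro k
    have h3 : ∀ j, v (Nat.pair k (j + 1)) =
        (((1 / ((k : ℝ) + 1)) : ℝ) : 𝕜) * (((w k 0 : ℝ) : 𝕜)⁻¹ * v (Nat.pair k 0)) := by
      intro j
      rw [← hconst k (j + 1)]
      have : w k (j + 1) = 1 / ((k : ℝ) + 1) := by simp [w]
      rw [← this, mul_inv_cancel_left₀ (w_ne k (j + 1))]
    have h4 : Tendsto (fun j : ℕ => v (Nat.pair k (j + 1))) atTop (𝓝 0) :=
      (hlim k).comp (tendsto_add_atTop_nat 1)
    simp_rw [h3] at h4
    have h5 := tendsto_nhds_unique h4 tendsto_const_nhds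
    have hk : (((1 / ((k : ℝ) + 1)) : ℝ) : 𝕜) ≠ 0 := by
      have : (1 / ((k : ℝ) + 1)) ≠ 0 := by positivity
      exact_mod_cast this
    exact ((mul_eq_zero.mp h5.symm).resolve_left hk)
  ext z
  have h6 := hconst z.unpair.1 z.unpair.2
  rw [hzero z.unpair.1, Nat.pair_unpair] at h6
  have h7 : ((w z.unpair.1 z.unpair.2 : ℝ) : 𝕜)⁻¹ ≠ 0 := inv_ne_zero (w_ne _ _)
  exact (mul_eq_zero.mp h6).resolve_left h7

/-- The unit vectors. -/
noncomputable def unit (𝕜 : Type) [RCLike 𝕜] (z : ℕ) : C₀(ℕ, 𝕜) :=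
  ofFinite (fun y => if y = z then 1 else 0) (by
    apply (Set.finite_singleton z).subset
    intro y hy
    by_contra hcon
    exact hy (if_neg hcon))

lemma unit_apply (z y : ℕ) : unit 𝕜 z y = if y = z then (1 : 𝕜) else 0 := rfl

/-- The M-basis of `c_0`. -/
noncomputable def X (𝕜 : Type) [RCLike 𝕜] (n : ℕ) : C₀(ℕ, 𝕜) := vec 𝕜 n.unpair.1 n.unpair.2

/-- The biorthogonal functionals. -/
noncomputable def Fn (𝕜 : Type) [RCLike 𝕜] (n : ℕ) : C₀(ℕ, 𝕜) →L[𝕜] 𝕜 :=
  fn 𝕜 n.unpair.1 n.unpair.2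

lemma Fn_X (i j : ℕ) : Fn 𝕜 i (X 𝕜 j) = if i = j then (1 : 𝕜) else 0 := by
  unfold Fn X
  rw [fn_vec]
  by_cases h : i = j
  · subst h; simp
  · rw [if_neg h, if_neg]
    intro hc
    apply h
    have h1 := (Prod.ext_iff.mp hc).1
    have h2 := (Prod.ext_iff.mp hc).2
    simp only at h1 h2
    rw [← Nat.pair_unpair i, ← Nat.pair_unpair j, h1, h2]

lemma Fn_total (v : C₀(ℕ, 𝕜)) (hv : ∀ n, Fn 𝕜 n v = 0) : v = 0 := by
  apply fn_total
  intro k j
  have := hv (Nat.pair k j)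
  simpa [Fn] using this

lemma vec_mem (k j : ℕ) : vec 𝕜 k j ∈ Submodule.span 𝕜 (Set.range (X 𝕜)) := by
  apply Submodule.subset_span
  refine ⟨Nat.pair k j, ?_⟩
  simp [X]

lemma unit_mem (k j : ℕ) : unit 𝕜 (Nat.pair k j) ∈ Submodule.span 𝕜 (Set.range (X 𝕜)) := by
  cases j with
  | zero =>
    have : unit 𝕜 (Nat.pair k 0) = vec 𝕜 k 0 := by
      ext z
      rw [unit_apply, vec_apply]
      by_cases hz : z = Nat.pair k 0
      · subst hz; simp [w]
      · rw [if_neg hz, if_neg]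
        rintro ⟨h1, h2⟩
        apply hz
        rw [← Nat.pair_unpair z, h1, Nat.le_zero.mp h2]
    rw [this]
    exact vec_mem k 0
  | succ j =>
    have : unit 𝕜 (Nat.pair k (j + 1)) = ((k : 𝕜) + 1) • (vec 𝕜 k (j + 1) - vec 𝕜 k j) := by
      ext z
      have hk : (k : 𝕜) + 1 ≠ 0 := by exact_mod_cast Nat.succ_ne_zero k
      rw [unit_apply, ZeroAtInftyContinuousMap.smul_apply, ZeroAtInftyContinuousMap.sub_apply,
        vec_apply, vec_apply]
      by_cases hz : z = Nat.pair k (j + 1)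
      · subst hz
        simp [w, hk]
      · rw [if_neg hz]
        by_cases h1 : z.unpair.1 = k
        · by_cases h2 : z.unpair.2 ≤ j
          · rw [if_pos ⟨h1, by omega⟩, if_pos ⟨h1, h2⟩]; simp
          · have h3 : ¬ z.unpair.2 ≤ j + 1 := by
              intro h4
              apply hz
              rw [← Nat.pair_unpair z, h1]
              congr 1
              omega
            rw [if_neg (by tauto), if_neg (by tauto)]; simp
        · rw [if_neg (by tauto), if_neg (by tauto)]; simp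
    rw [this]
    exact Submodule.smul_mem _ _ (Submodule.sub_mem _ (vec_mem _ _) (vec_mem _ _))

lemma dense_span : (Submodule.span 𝕜 (Set.range (X 𝕜))).topologicalClosure = ⊤ := by
  rw [← Submodule.dense_iff_topologicalClosure_eq_top]
  intro f
  rw [Metric.mem_closure_iff]
  intro ε hε
  have hfin : {z | ε / 2 ≤ ‖f z‖}.Finite := by
    have h1 := tendsto_zero f
    rw [← Nat.cofinite_eq_atTop] at h1
    have h2 := h1.eventually (Metric.ball_mem_nhds (0 : 𝕜) (half_pos hε))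
    rw [Filter.eventually_cofinite] at h2
    refine h2.subset ?_
    intro z hz hz'
    have hz'' : dist (f z) 0 < ε / 2 := hz'
    rw [dist_zero_right] at hz''
    have : ε / 2 ≤ ‖f z‖ := hz
    linarith
  refine ⟨∑ z ∈ hfin.toFinset, f z • unit 𝕜 z, ?_, ?_⟩
  · apply Submodule.sum_mem
    intro z _
    rw [← Nat.pair_unpair z]
    exact Submodule.smul_mem _ _ (unit_mem z.unpair.1 z.unpair.2)
  · rw [dist_eq_norm]
    refine lt_of_le_of_lt ?_ (half_lt_self hε)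
    rw [norm_le_iff (half_pos hε).le]
    intro y
    have hs : (∑ z ∈ hfin.toFinset, f z • unit 𝕜 z) y = if y ∈ hfin.toFinset then f y else 0 := by
      have h1 : (∑ z ∈ hfin.toFinset, f z • unit 𝕜 z) y =
          ∑ z ∈ hfin.toFinset, (f z • unit 𝕜 z) y := by
        rw [← ev_apply, map_sum]
        rfl
      rw [h1]
      simp only [ZeroAtInftyContinuousMap.smul_apply, unit_apply, smul_eq_mul, mul_ite, mul_one,
        mul_zero]
      rw [Finset.sum_ite_eq]
    rw [ZeroAtInftyContinuousMap.sub_apply, hs]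
    by_cases hy : y ∈ hfin.toFinset
    · rw [if_pos hy, sub_self, norm_zero]
      exact (half_pos hε).le
    · rw [if_neg hy, sub_zero]
      rw [Set.Finite.mem_toFinset] at hy
      exact (not_le.mp hy).le

lemma one_le_norm_vec (k j : ℕ) : 1 ≤ ‖vec 𝕜 k j‖ := by
  have h := norm_apply_le (vec 𝕜 k j) (Nat.pair k 0)
  rw [vec_pair, if_pos ⟨rfl, Nat.zero_le _⟩] at h
  simpa [w] using h

lemma norm_vec_sub_le (k j j' : ℕ) : ‖vec 𝕜 k j - vec 𝕜 k j'‖ ≤ 1 / ((k : ℝ) + 1) := by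
  have hk : (0 : ℝ) ≤ 1 / ((k : ℝ) + 1) := by positivity
  rw [norm_le_iff hk]
  intro z
  rw [ZeroAtInftyContinuousMap.sub_apply, vec_apply, vec_apply]
  by_cases h1 : z.unpair.1 = k
  · by_cases h0 : z.unpair.2 = 0
    · rw [if_pos ⟨h1, by omega⟩, if_pos ⟨h1, by omega⟩, sub_self, norm_zero]
      exact hk
    · have hw : w k z.unpair.2 = 1 / ((k : ℝ) + 1) := by simp [w, h0]
      have hn : ‖((w k z.unpair.2 : ℝ) : 𝕜)‖ = 1 / ((k : ℝ) + 1) := by
        rw [RCLike.norm_ofReal, hw, abs_of_nonneg hk]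
      split_ifs
      · rw [sub_self, norm_zero]; exact hk
      · rw [sub_zero, hn]
      · rw [zero_sub, norm_neg, hn]
      · rw [sub_self, norm_zero]; exact hk
  · rw [if_neg (by tauto), if_neg (by tauto), sub_self, norm_zero]
    exact hk

end Pool.Agent.Helper37.MBC
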