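import Mathlib
import Pool.Agent.Helper37.MBC.Defs
import Pool.Agent.Helper37.MBC.Main

set_option autoImplicit false
open Filter Topology ZeroAtInfty Set

namespace Pool.Agent.Helper37.MBC

variable {𝕜 : Type} [RCLike 𝕜]

/-- The multiplier operator with multipliers `t i`, `i ∈ F`, restricted to a subspace. -/
noncomputable def mult (V : Submodule 𝕜 C₀(ℕ, 𝕜)) (F : Finset ℕ) (t : ℕ → 𝕜) :
    V →L[𝕜] C₀(ℕ, 𝕜) :=
  ∑ i ∈ F, ((t i) • ((Fn 𝕜 i).comp V.subtypeL)).smulRight (X 𝕜 i)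

lemma mult_apply (V : Submodule 𝕜 C₀(ℕ, 𝕜)) (F : Finset ℕ) (t : ℕ → 𝕜) (v : V) :
    mult V F t v = ∑ i ∈ F, (t i * Fn 𝕜 i v) • X 𝕜 i := by
  unfold mult
  rw [sum_apply]
  rfl

lemma sum_X (F : Finset ℕ) (t : ℕ → 𝕜) (n : ℕ) :
    ∑ i ∈ F, (t i * Fn 𝕜 i (X 𝕜 n)) • X 𝕜 i = if n ∈ F then t n • X 𝕜 n else 0 := by
  simp only [Fn_X, mul_ite, mul_one, mul_zero, ite_smul, zero_smul]
  rw [Finset.sum_ite_eq']

lemma X_mem (σ : Set ℕ) (n : ℕ) (hn : n ∈ σ) : X 𝕜 n ∈ closedSpan 𝕜 (X 𝕜) σ :=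
  Submodule.le_topologicalClosure _ (Submodule.subset_span ⟨n, hn, rfl⟩)

/-- If `σ` contains infinitely many members of infinitely many rows then no sequence of finitely
supported multipliers converges strongly to the identity on the closed span. -/
lemma no_multiplier (σ : Set ℕ) (hσ : {k : ℕ | {j : ℕ | Nat.pair k j ∈ σ}.Infinite}.Infinite)
    (F : ℕ → Finset ℕ) (t : ℕ → ℕ → 𝕜)
    (hT : ∀ v ∈ closedSpan 𝕜 (X 𝕜) σ,
      Tendsto (fun m => ∑ i ∈ F m, (t m i * Fn 𝕜 i v) • X 𝕜 i) atTop (𝓝 v)) : False := by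
  set V := closedSpan 𝕜 (X 𝕜) σ with hV
  have : CompleteSpace V :=
    (Submodule.isClosed_topologicalClosure _ : IsClosed (V : Set C₀(ℕ, 𝕜))).completeSpace_coe
  obtain ⟨C, hC⟩ := banach_steinhaus (g := fun m => mult V (F m) (t m)) (by
    intro v
    have h1 := (hT v v.2).norm
    obtain ⟨C, hC⟩ := h1.bddAbove_range
    refine ⟨C, fun m => ?_⟩
    rw [mult_apply]
    exact hC ⟨m, rfl⟩)
  -- a row with small weight
  obtain ⟨k, hk, hkC⟩ := hσ.exists_gt ⌈2 * C⌉₊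
  have hk1 : 2 * C < (k : ℝ) + 1 := by
    have h1 : 2 * C ≤ (⌈2 * C⌉₊ : ℝ) := Nat.le_ceil _
    have h2 : ((⌈2 * C⌉₊ : ℕ) : ℝ) < (k : ℝ) := by exact_mod_cast hkC
    linarith
  have hk0 : (0 : ℝ) < (k : ℝ) + 1 := by positivity
  obtain ⟨j, hj⟩ := hk.nonempty
  have hj' : Nat.pair k j ∈ σ := hj
  have hXj := X_mem (𝕜 := 𝕜) σ _ hj'
  have hlim := (hT _ hXj).norm
  have hX1 : 1 ≤ ‖X 𝕜 (Nat.pair k j)‖ := by
    unfold X
    exact one_le_norm_vec _ _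
  have hev : ∀ᶠ m in atTop, 1 / 2 < ‖∑ i ∈ F m, (t m i * Fn 𝕜 i (X 𝕜 (Nat.pair k j))) • X 𝕜 i‖ :=
    hlim.eventually (lt_mem_nhds (by linarith))
  obtain ⟨m, hm⟩ := hev.exists
  -- an element of the row outside of `F m`
  have hinf : {j' : ℕ | Nat.pair k j' ∈ F m}.Finite := by
    have : {j' : ℕ | Nat.pair k j' ∈ F m} = (fun j' => Nat.pair k j') ⁻¹' (F m : Set ℕ) := rfl
    rw [this]
    apply Set.Finite.preimage _ (F m).finite_toSet
    intro a _ b _ hab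
    exact (Nat.pair_eq_pair.mp hab).2
  obtain ⟨j', hj1, hj2⟩ := (hk.sdiff hinf).nonempty
  have hj1' : Nat.pair k j' ∈ σ := hj1
  have hj2' : Nat.pair k j' ∉ F m := hj2
  have hXj' := X_mem (𝕜 := 𝕜) σ _ hj1'
  have hn := (mult V (F m) (t m)).le_opNorm ⟨X 𝕜 (Nat.pair k j) - X 𝕜 (Nat.pair k j'),
    V.sub_mem hXj hXj'⟩
  rw [mult_apply] at hn
  have hsplit : ∑ i ∈ F m, (t m i * Fn 𝕜 i (X 𝕜 (Nat.pair k j) - X 𝕜 (Nat.pair k j'))) • X 𝕜 i =
      ∑ i ∈ F m, (t m i * Fn 𝕜 i (X 𝕜 (Nat.pair k j))) • X 𝕜 i := by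
    have h2 := sum_X (F m) (t m) (Nat.pair k j')
    rw [if_neg hj2'] at h2
    have h3 : ∀ i ∈ F m, (t m i * Fn 𝕜 i (X 𝕜 (Nat.pair k j) - X 𝕜 (Nat.pair k j'))) • X 𝕜 i =
        (t m i * Fn 𝕜 i (X 𝕜 (Nat.pair k j))) • X 𝕜 i -
          (t m i * Fn 𝕜 i (X 𝕜 (Nat.pair k j'))) • X 𝕜 i := by
      intro i _
      rw [map_sub, mul_sub]
      exact sub_smul (R := 𝕜) (M := C₀(ℕ, 𝕜)) _ _ _
    rw [Finset.sum_congr rfl h3, Finset.sum_sub_distrib, h2, sub_zero]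
  simp only at hn
  rw [hsplit] at hn
  have hvn : ‖(⟨X 𝕜 (Nat.pair k j) - X 𝕜 (Nat.pair k j'), V.sub_mem hXj hXj'⟩ : V)‖ ≤
      1 / ((k : ℝ) + 1) := by
    have h3 := norm_vec_sub_le (𝕜 := 𝕜) k j j'
    have h4 : X 𝕜 (Nat.pair k j) - X 𝕜 (Nat.pair k j') = vec 𝕜 k j - vec 𝕜 k j' := by
      simp [X]
    rw [Submodule.coe_norm]
    simp only
    rw [h4]
    exact h3
  have hCm : ‖mult V (F m) (t m)‖ ≤ C := hC m
  have hC0 : 0 ≤ C := le_trans (ContinuousLinearMap.opNorm_nonneg _) hCm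
  have h5 : ‖mult V (F m) (t m)‖ *
      ‖(⟨X 𝕜 (Nat.pair k j) - X 𝕜 (Nat.pair k j'), V.sub_mem hXj hXj'⟩ : V)‖ ≤
      C * (1 / ((k : ℝ) + 1)) := mul_le_mul hCm hvn (norm_nonneg _) hC0
  have h6 : C * (1 / ((k : ℝ) + 1)) < 1 / 2 := by
    rw [mul_one_div, div_lt_iff₀ hk0]
    linarith
  linarith

/-- Pigeonhole: some colour has infinitely many members in infinitely many rows. -/
lemma exists_colour (r : ℕ) (χ : ℕ → Fin r) :
    ∃ q : Fin r, {k : ℕ | {j : ℕ | χ (Nat.pair k j) = q}.Infinite}.Infinite := by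
  have h1 : ∀ k : ℕ, ∃ q : Fin r, {j : ℕ | χ (Nat.pair k j) = q}.Infinite := by
    intro k
    obtain ⟨q, hq⟩ := Finite.exists_infinite_fiber (fun j : ℕ => χ (Nat.pair k j))
    exact ⟨q, Set.infinite_coe_iff.mp hq⟩
  choose c hc using h1
  obtain ⟨q, hq⟩ := Finite.exists_infinite_fiber c
  refine ⟨q, (Set.infinite_coe_iff.mp hq).mono ?_⟩
  intro k hk
  have hk' : c k = q := hk
  have := hc k
  rw [hk'] at this
  exact this

/-- A basis with parentheses is a multiplier method. -/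
lemma multiplier_of_basis {E : Type} [NormedAddCommGroup E] [NormedSpace 𝕜 E] (x : ℕ → E)
    (f : ℕ → (E →L[𝕜] 𝕜)) (hf : ∀ i j : ℕ, f i (x j) = if i = j then 1 else 0)
    (s : Set ℕ) (a : ℕ → ℕ) (ha : ∀ n, a n ∈ s) (hinj : Function.Injective a)
    (hb : IsBasisWithParentheses 𝕜 (sub 𝕜 x s a ha)) :
    ∃ F : ℕ → Finset ℕ, (∀ m, ∀ i ∈ F m, i ∈ s) ∧
      ∀ v ∈ closedSpan 𝕜 x s, Tendsto (fun m => ∑ i ∈ F m, f i v • x i) atTop (𝓝 v) := by
  obtain ⟨g, m, hg, hm, hlim⟩ := hb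
  refine ⟨fun k => (Finset.range (m k)).image a, ?_, ?_⟩
  · intro k i hi
    obtain ⟨n, _, rfl⟩ := Finset.mem_image.mp hi
    exact ha n
  · intro v hv
    have hl := hlim ⟨v, hv⟩
    have hl2 : Tendsto (fun k => ∑ i ∈ Finset.range (m k), g i ⟨v, hv⟩ • x (a i)) atTop (𝓝 v) := by
      have h1 := (continuous_subtype_val.tendsto _).comp hl
      refine h1.congr ?_
      intro k
      simp only [Function.comp_apply]
      rw [AddSubmonoidClass.coe_finsetSum]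
      rfl
    have hgf : ∀ n, g n ⟨v, hv⟩ = f (a n) v := by
      intro n
      have h2 := ((f (a n)).continuous.tendsto _).comp hl2
      have h3 : Tendsto (fun _ : ℕ => g n ⟨v, hv⟩) atTop (𝓝 (f (a n) v)) := by
        refine h2.congr' ?_
        filter_upwards [hm.tendsto_atTop.eventually_gt_atTop n] with k hk
        simp only [Function.comp_apply, map_sum, map_smul, hf, smul_eq_mul]
        rw [Finset.sum_eq_single n]
        · simp
        · intro i _ hi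
          rw [if_neg (fun h => hi (hinj h).symm), mul_zero]
        · intro hn
          exact absurd (Finset.mem_range.mpr hk) hn
      exact tendsto_nhds_unique tendsto_const_nhds h3
    refine hl2.congr ?_
    intro k
    rw [Finset.sum_image (fun i _ j _ hij => hinj hij)]
    exact Finset.sum_congr rfl fun i _ => by rw [hgf]

end Pool.Agent.Helper37.MBC
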