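import Mathlib
import Pool.Agent.Helper37.MBC.Defs
import Pool.Agent.Helper37.MBC.Main

set_option autoImplicit false
open Filter Topology ZeroAtInfty Set

namespace Pool.Agent.Helper37.MBC

variable {𝕜 : Type} [RCLike 𝕜]

lemma telescope (g : ℕ → 𝕜) (w : 𝕜) (i n : ℕ) :
    ∑ j ∈ Finset.range n, (g j - g (j + 1)) * (if i ≤ j then w else 0) =
      if i < n then w * (g i - g n) else 0 := by
  induction n with
  | zero => simp
  | succ n ih =>
    rw [Finset.sum_range_succ, ih]
    rcases lt_trichotomy i n with h | h | h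
    · rw [if_pos h, if_pos h.le, if_pos (by omega)]
      ring
    · subst h
      rw [if_neg (lt_irrefl i), if_pos le_rfl, if_pos (Nat.lt_succ_self i)]
      ring
    · rw [if_neg (by omega), if_neg (by omega), if_neg (by omega)]
      ring

lemma row_apply (v : C₀(ℕ, 𝕜)) (k n k' i : ℕ) :
    (∑ j ∈ Finset.range n, fn 𝕜 k j v • vec 𝕜 k j) (Nat.pair k' i) =
      if k' = k ∧ i < n then v (Nat.pair k i) -
        ((w k i : ℝ) : 𝕜) * (((w k n : ℝ) : 𝕜)⁻¹ * v (Nat.pair k n)) else 0 := by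
  have h1 : (∑ j ∈ Finset.range n, fn 𝕜 k j v • vec 𝕜 k j) (Nat.pair k' i) =
      ∑ j ∈ Finset.range n, (fn 𝕜 k j v • vec 𝕜 k j) (Nat.pair k' i) := by
    rw [← ev_apply, map_sum]
    rfl
  rw [h1]
  by_cases hk : k' = k
  · subst hk
    have h2 := telescope (𝕜 := 𝕜) (fun j => ((w k' j : ℝ) : 𝕜)⁻¹ * v (Nat.pair k' j))
      ((w k' i : ℝ) : 𝕜) i n
    have h3 : ∀ j ∈ Finset.range n, (fn 𝕜 k' j v • vec 𝕜 k' j) (Nat.pair k' i) =
        (((w k' j : ℝ) : 𝕜)⁻¹ * v (Nat.pair k' j) -
          ((w k' (j + 1) : ℝ) : 𝕜)⁻¹ * v (Nat.pair k' (j + 1))) *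
          (if i ≤ j then ((w k' i : ℝ) : 𝕜) else 0) := by
      intro j _
      rw [ZeroAtInftyContinuousMap.smul_apply, vec_pair, fn_apply, smul_eq_mul]
      simp
    rw [Finset.sum_congr rfl h3, h2]
    by_cases hi : i < n
    · rw [if_pos hi, if_pos ⟨rfl, hi⟩, mul_sub, mul_inv_cancel_left₀ (w_ne k' i)]
    · rw [if_neg hi, if_neg (by tauto)]
  · rw [if_neg (by tauto)]
    apply Finset.sum_eq_zero
    intro j _
    rw [ZeroAtInftyContinuousMap.smul_apply, vec_pair, if_neg (by tauto), smul_zero]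

lemma w_le_one (k i : ℕ) : w k i ≤ 1 := by
  unfold w
  split_ifs
  · exact le_rfl
  · rw [div_le_one (by positivity)]
    have : (0 : ℝ) ≤ k := Nat.cast_nonneg k
    linarith

/-- The M-basis is strong: every vector is in the closed span of the members in its support. -/
lemma strong (v : C₀(ℕ, 𝕜)) : v ∈ closedSpan 𝕜 (X 𝕜) {i | Fn 𝕜 i v ≠ 0} := by
  have hmem : v ∈ closure (Submodule.span 𝕜 (X 𝕜 '' {i | Fn 𝕜 i v ≠ 0}) : Set C₀(ℕ, 𝕜)) := by
    rw [Metric.mem_closure_iff]
    intro ε hε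
    have hfin : {z | ε / 2 ≤ ‖v z‖}.Finite := by
      have h1 := tendsto_zero v
      rw [← Nat.cofinite_eq_atTop] at h1
      have h2 := h1.eventually (Metric.ball_mem_nhds (0 : 𝕜) (half_pos hε))
      rw [Filter.eventually_cofinite] at h2
      refine h2.subset ?_
      intro z hz hz'
      have hz'' : dist (v z) 0 < ε / 2 := hz'
      rw [dist_zero_right] at hz''
      have : ε / 2 ≤ ‖v z‖ := hz
      linarith
    have hJ : ∀ k : ℕ, ∃ J : ℕ, ∀ j, J ≤ j → ((k : ℝ) + 1) * ‖v (Nat.pair k j)‖ ≤ ε / 2 := by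
      intro k
      have hlim : Tendsto (fun j : ℕ => v (Nat.pair k j)) atTop (𝓝 0) := by
        refine (tendsto_zero v).comp ?_
        exact Filter.tendsto_atTop_mono (fun j => Nat.right_le_pair k j) tendsto_id
      have h2 := (hlim.norm.const_mul ((k : ℝ) + 1))
      rw [norm_zero, mul_zero] at h2
      have h3 := h2.eventually (gt_mem_nhds (half_pos hε))
      obtain ⟨J, hJ⟩ := eventually_atTop.mp h3
      exact ⟨J, fun j hj => (hJ j hj).le⟩
    choose J hJ using hJ
    set R : Finset ℕ := hfin.toFinset.image (fun z => z.unpair.1) with hR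
    refine ⟨∑ k ∈ R, ∑ j ∈ Finset.range (J k + 1), fn 𝕜 k j v • vec 𝕜 k j, ?_, ?_⟩
    · apply Submodule.sum_mem
      intro k _
      apply Submodule.sum_mem
      intro j _
      by_cases h0 : fn 𝕜 k j v = 0
      · rw [h0, zero_smul]
        exact Submodule.zero_mem _
      · apply Submodule.smul_mem
        apply Submodule.subset_span
        refine ⟨Nat.pair k j, ?_, ?_⟩
        · show Fn 𝕜 (Nat.pair k j) v ≠ 0
          simpa [Fn] using h0
        · simp [X]
    · rw [dist_eq_norm]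
      refine lt_of_le_of_lt ?_ (half_lt_self hε)
      rw [norm_le_iff (half_pos hε).le]
      intro z
      obtain ⟨k', i, rfl⟩ : ∃ k' i, z = Nat.pair k' i :=
        ⟨z.unpair.1, z.unpair.2, (Nat.pair_unpair z).symm⟩
      have h1 : (∑ k ∈ R, ∑ j ∈ Finset.range (J k + 1), fn 𝕜 k j v • vec 𝕜 k j) (Nat.pair k' i) =
          ∑ k ∈ R, (∑ j ∈ Finset.range (J k + 1), fn 𝕜 k j v • vec 𝕜 k j) (Nat.pair k' i) := by
        rw [← ev_apply, map_sum]
        rfl
      rw [ZeroAtInftyContinuousMap.sub_apply, h1]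
      simp only [row_apply]
      by_cases hk : k' ∈ R
      · rw [Finset.sum_eq_single_of_mem k' hk (fun k _ hkk => if_neg (fun h => hkk h.1.symm))]
        have hk1 : (1 : ℝ) ≤ (k' : ℝ) + 1 := by
          have : (0 : ℝ) ≤ k' := Nat.cast_nonneg k'
          linarith
        by_cases hi : i < J k' + 1
        · rw [if_pos ⟨rfl, hi⟩, sub_sub_cancel, norm_mul, norm_mul, norm_inv, RCLike.norm_ofReal,
            RCLike.norm_ofReal, abs_of_pos (w_pos _ _), abs_of_pos (w_pos _ _)]
          have hw : w k' (J k' + 1) = 1 / ((k' : ℝ) + 1) := by simp [w]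
          rw [hw, one_div, inv_inv]
          have h5 := hJ k' (J k' + 1) (Nat.le_succ _)
          have h6 : 0 ≤ ((k' : ℝ) + 1) * ‖v (Nat.pair k' (J k' + 1))‖ := by positivity
          calc w k' i * (((k' : ℝ) + 1) * ‖v (Nat.pair k' (J k' + 1))‖) ≤
              1 * (((k' : ℝ) + 1) * ‖v (Nat.pair k' (J k' + 1))‖) :=
                mul_le_mul_of_nonneg_right (w_le_one _ _) h6
            _ ≤ ε / 2 := by rw [one_mul]; exact h5
        · rw [if_neg (by tauto), sub_zero]
          have h5 := hJ k' i (by omega)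
          have h6 : ‖v (Nat.pair k' i)‖ ≤ ((k' : ℝ) + 1) * ‖v (Nat.pair k' i)‖ :=
            le_mul_of_one_le_left (norm_nonneg _) hk1
          linarith
      · have h7 : ∀ k ∈ R, (if k' = k ∧ i < J k + 1 then v (Nat.pair k i) -
            ((w k i : ℝ) : 𝕜) * (((w k (J k + 1) : ℝ) : 𝕜)⁻¹ * v (Nat.pair k (J k + 1)))
              else 0) = 0 := by
          intro k hkR
          apply if_neg
          rintro ⟨rfl, _⟩
          exact hk hkR
        rw [Finset.sum_eq_zero h7, sub_zero]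
        by_contra hcon
        apply hk
        rw [hR]
        refine Finset.mem_image.mpr ⟨Nat.pair k' i, ?_, ?_⟩
        · rw [Set.Finite.mem_toFinset]
          exact (not_le.mp hcon).le
        · simp
  exact hmem

end Pool.Agent.Helper37.MBC
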